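import Pool.Agent.UMG.StmtsA

set_option autoImplicit false

namespace Pool.Agent.UMG.A.H1

open Finset Pool.Agent.UMG

theorem count_mul_le_sum (d : List ℕ) (k : ℕ) : d.count k * k ≤ d.sum := by
  induction d with
  | nil => simp
  | cons a t ih =>
    rw [List.count_cons, List.sum_cons]
    by_cases h : a = k
    · subst h
      simp only [beq_self_eq_true, if_true]
      linarith [add_mul (t.count a) 1 a]
    · have : (a == k) = false := by simpa using h
      rw [this]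
      simp only [Bool.false_eq_true, if_false, add_zero]
      omega

theorem trm (hMON : MonStmt) (hCST : CstStmt) : TrmStmt := by
  intro K x d k l hF hM hk hkM hl hln
  obtain ⟨hx0, hxK, hx1⟩ := hF
  obtain ⟨M, hMd⟩ : ∃ M : ℕ, M = d.sum := ⟨_, rfl⟩
  rw [← hMd] at hM hkM hxK hx1 ⊢
  obtain ⟨n, hn⟩ : ∃ n : ℕ, n = d.count k := ⟨_, rfl⟩
  rw [← hn] at hln ⊢
  have hnk : n * k ≤ M := by
    rw [hn, hMd]
    exact count_mul_le_sum d k
  obtain ⟨s, hs⟩ : ∃ s : ℝ, s = Real.sqrt M := ⟨_, rfl⟩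
  rw [← hs] at hkM hxK hx1
  have hMR : (0 : ℝ) < (M : ℝ) := by exact_mod_cast hM
  have hs0 : 0 < s := by
    rw [hs]
    exact Real.sqrt_pos.mpr hMR
  have he : 0 < Real.exp 1 := Real.exp_pos 1
  have hx1p : 0 < x 1 := lt_of_lt_of_le (div_pos hs0 he) hx1
  have hkf : (0 : ℝ) < (k.factorial : ℝ) := by exact_mod_cast k.factorial_pos
  have hq : qk M k = Real.exp 1 ^ k * (k.factorial : ℝ) * (M : ℝ) / s ^ k := by
    unfold qk
    rw [hs]
  have hqp : 0 < qk M k := by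
    rw [hq]
    positivity
  -- the first factor
  have hK0 : (0 : ℝ) ≤ (K : ℝ) := Nat.cast_nonneg K
  have h1 := hMON (fun i => x (l * i)) (fun _ => (K : ℝ) * s) k (by
    intro i hi1 hik
    refine ⟨hx0 _, hxK _ ?_ ?_⟩
    · exact Nat.one_le_iff_ne_zero.mpr (Nat.mul_ne_zero (by omega) (by omega))
    · calc l * i ≤ n * k := Nat.mul_le_mul hln hik
        _ ≤ M := hnk)
  have h2 := hCST ((K : ℝ) * s) k (mul_nonneg hK0 hs0.le)
  have h3 : ((K : ℝ) * s + k) ^ k ≤ (((K : ℝ) + 1) * s) ^ k := by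
    refine pow_le_pow_left₀ (by positivity) ?_ k
    linarith
  have hh0 : 0 ≤ hh x l k := h1.1
  have hh1 : hh x l k ≤ (((K : ℝ) + 1) * s) ^ k / (k.factorial : ℝ) :=
    le_trans h1.2 (le_trans h2 (div_le_div_of_nonneg_right h3 hkf.le))
  -- the second factor
  have h4 : (n : ℝ) ≤ (M : ℝ) := by
    have : n ≤ M := le_trans (Nat.le_mul_of_pos_right n hk) hnk
    exact_mod_cast this
  have h5 : (s / Real.exp 1) ^ k ≤ x 1 ^ k := pow_le_pow_left₀ (div_pos hs0 he).le hx1 k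
  have h6 : (n : ℝ) * (k.factorial : ℝ) / x 1 ^ k ≤ qk M k := by
    have h7 : (n : ℝ) * (k.factorial : ℝ) / x 1 ^ k ≤
        (M : ℝ) * (k.factorial : ℝ) / (s / Real.exp 1) ^ k :=
      div_le_div₀ (by positivity) (mul_le_mul_of_nonneg_right h4 hkf.le) (by positivity) h5
    refine le_trans h7 (le_of_eq ?_)
    rw [hq, div_pow]
    field_simp
  have h60 : 0 ≤ (n : ℝ) * (k.factorial : ℝ) / x 1 ^ k := by positivity
  have hl1 : (1 : ℝ) ≤ (l : ℝ) := by
    have : 1 ≤ l := by omega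
    exact_mod_cast this
  have h8 : ((n : ℝ) * (k.factorial : ℝ) / x 1 ^ k) ^ l ≤ qk M k ^ l :=
    pow_le_pow_left₀ h60 h6 l
  have h9 : hh x l k * ((n : ℝ) * (k.factorial : ℝ) / x 1 ^ k) ^ l ≤
      (((K : ℝ) + 1) * s) ^ k / (k.factorial : ℝ) * qk M k ^ l :=
    mul_le_mul hh1 h8 (by positivity) (by positivity)
  have h10 : (((K : ℝ) + 1) * s) ^ k / (k.factorial : ℝ) * qk M k ^ l =
      (((K : ℝ) + 1) * Real.exp 1) ^ k * M * qk M k ^ (l - 1) := by
    obtain ⟨m, rfl⟩ : ∃ m, l = m + 1 := ⟨l - 1, by omega⟩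
    rw [Nat.add_sub_cancel, pow_succ (qk M k) m]
    have h11 : (((K : ℝ) + 1) * s) ^ k / (k.factorial : ℝ) * qk M k =
        (((K : ℝ) + 1) * Real.exp 1) ^ k * M := by
      rw [hq, mul_pow, mul_pow]
      field_simp
    calc (((K : ℝ) + 1) * s) ^ k / (k.factorial : ℝ) * (qk M k ^ m * qk M k) =
        ((((K : ℝ) + 1) * s) ^ k / (k.factorial : ℝ) * qk M k) * qk M k ^ m := by ring
      _ = _ := by rw [h11]
  have h12 : hh x l k * ((n : ℝ) * (k.factorial : ℝ) / x 1 ^ k) ^ l / (l : ℝ) ≤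
      hh x l k * ((n : ℝ) * (k.factorial : ℝ) / x 1 ^ k) ^ l :=
    div_le_self (mul_nonneg hh0 (by positivity)) hl1
  rw [← h10]
  exact le_trans h12 h9

end Pool.Agent.UMG.A.H1
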